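import Pool.Agent.Helper54.SR.Defs

/-!
# SR-T6: the homomorphism `Θ` from functions on the quotient to an elementary abelian kernel
-/

set_option autoImplicit false

namespace Pool.Agent.Helper54.SR

/-- SR-T6 -/
theorem exists_Theta {G : Type} [Group G] [Finite G] {ℓ : ℕ} (hℓ : ℓ.Prime) {Q : Type} [Group Q]
    (V : Subgroup G) [V.Normal]
    (hVc : ∀ a b : V, a * b = b * a) (hVℓ : ∀ a : V, a ^ ℓ = 1) (act : G →* Q)
    (hact : Function.Surjective act) (hker : ∀ g, act g = 1 ↔ g ∈ V) (v : G) (hv : v ∈ V)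
    [DecidableEq Q] :
    ∃ Θ : (Q → ZMod ℓ) → G, (∀ φ, Θ φ ∈ V) ∧ (∀ φ ψ, Θ (φ + ψ) = Θ φ * Θ ψ) ∧
      (∀ (a : G) (φ : Q → ZMod ℓ), Θ (fun q => φ ((act a)⁻¹ * q)) = a * Θ φ * a⁻¹) ∧
      ∀ (a : G) (e : ℕ), Θ (Pi.single (act a) (e : ZMod ℓ)) = a * v ^ e * a⁻¹ := by
  classical
  have : NeZero ℓ := ⟨hℓ.ne_zero⟩
  have hQ : Finite Q := Finite.of_surjective act hact
  let _ : Fintype Q := Fintype.ofFinite Q
  let _ : CommGroup V := { (inferInstance : Group V) with mul_comm := hVc }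
  choose r hr using hact
  have hnorm : V.Normal := inferInstance
  let w : Q → V := fun q => ⟨r q * v * (r q)⁻¹, hnorm.conj_mem v hv (r q)⟩
  have hw : ∀ a : G, (w (act a) : G) = a * v * a⁻¹ := by
    intro a
    show r (act a) * v * (r (act a))⁻¹ = a * v * a⁻¹
    have h1 : a⁻¹ * r (act a) ∈ V := by
      rw [← hker, map_mul, map_inv, hr, inv_mul_cancel]
    have h2 : (a⁻¹ * r (act a)) * v = v * (a⁻¹ * r (act a)) := by
      have := hVc ⟨_, h1⟩ ⟨v, hv⟩
      exact congrArg Subtype.val this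
    have h3 : r (act a) * v = a * v * a⁻¹ * r (act a) := by
      calc r (act a) * v = a * ((a⁻¹ * r (act a)) * v) := by group
        _ = a * (v * (a⁻¹ * r (act a))) := by rw [h2]
        _ = a * v * a⁻¹ * r (act a) := by group
    rw [h3, mul_inv_cancel_right]
  have hpow : ∀ (q : Q) (n : ℕ), w q ^ (n % ℓ) = w q ^ n := by
    intro q n
    conv_rhs => rw [← Nat.mod_add_div n ℓ, pow_add, pow_mul, hVℓ, one_pow, mul_one]
  let T : (Q → ZMod ℓ) → V := fun φ => ∏ q, w q ^ (φ q).val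
  refine ⟨fun φ => (T φ : G), fun φ => (T φ).2, ?_, ?_, ?_⟩
  · intro φ ψ
    show (T (φ + ψ) : G) = (T φ : G) * (T ψ : G)
    rw [← Subgroup.coe_mul]
    congr 1
    show ∏ q, w q ^ ((φ + ψ) q).val = (∏ q, w q ^ (φ q).val) * ∏ q, w q ^ (ψ q).val
    rw [← Finset.prod_mul_distrib]
    refine Finset.prod_congr rfl fun q _ => ?_
    rw [Pi.add_apply, ZMod.val_add, hpow, pow_add]
  · intro a φ
    have h1 : T (fun q => φ ((act a)⁻¹ * q)) = MulAut.conjNormal a (T φ) := by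
      show ∏ q, w q ^ (φ ((act a)⁻¹ * q)).val = MulAut.conjNormal a (∏ q, w q ^ (φ q).val)
      rw [map_prod]
      refine Fintype.prod_equiv (Equiv.mulLeft (act a)⁻¹) _ _ fun q => ?_
      rw [Equiv.coe_mulLeft, map_pow]
      congr 1
      apply Subtype.ext
      rw [MulAut.conjNormal_apply]
      have h2 : (w ((act a)⁻¹ * q) : G) = (a⁻¹ * r q) * v * (a⁻¹ * r q)⁻¹ := by
        have := hw (a⁻¹ * r q)
        rwa [map_mul, map_inv, hr] at this
      rw [h2]
      show r q * v * (r q)⁻¹ = _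
      group
    show (T (fun q => φ ((act a)⁻¹ * q)) : G) = a * (T φ : G) * a⁻¹
    rw [h1, MulAut.conjNormal_apply]
  · intro a e
    show ((∏ q, w q ^ ((Pi.single (act a) (e : ZMod ℓ) : Q → ZMod ℓ) q).val : V) : G) = _
    rw [Finset.prod_eq_single (act a)]
    · rw [Pi.single_eq_same, ZMod.val_natCast, hpow, Subgroup.coe_pow, hw, conj_pow]
    · intro q _ hq
      rw [Pi.single_eq_of_ne hq, ZMod.val_zero, pow_zero]
    · intro h
      exact absurd (Finset.mem_univ _) h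

end Pool.Agent.Helper54.SR
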