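import Pool.Agent.Helper54.SR.Defs
import Pool.Agent.Helper18.PW.Places1

/-!
# SR-L1: places of a function field are discrete
-/

set_option autoImplicit false
open scoped Pointwise
open Polynomial Pool.Agent.Helper54.PW

namespace Pool.Agent.Helper54.SR

section
variable {k L : Type} [Field k] [Field L] [Algebra (RatFunc k) L]

private theorem h4_pk_mem (A : ValuationSubring L) (hA : IsPl k A) (hX : tX k L ∈ A) (q : k[X]) :
    pk k L q ∈ A := by
  induction q using Polynomial.induction_on' with
  | add p q hp hq =>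
    rw [map_add]
    exact A.add_mem _ _ hp hq
  | monomial n a =>
    rw [← C_mul_X_pow_eq_monomial, map_mul, map_pow]
    apply A.mul_mem
    · exact hA.2 a
    · apply pow_mem
      have : pk k L X = tX k L := by
        show algebraMap (RatFunc k) L (algebraMap k[X] (RatFunc k) X) = _
        rw [RatFunc.algebraMap_X]
        rfl
      rw [this]
      exact hX

private theorem h4_val_co (A : ValuationSubring L) (hA : IsPl k A) {c : k} (hc : c ≠ 0) :
    A.valuation (co k L c) = 1 := by
  have h1 : A.valuation (co k L c) ≤ 1 := (A.valuation_le_one_iff _).2 (hA.2 c)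
  have h2 : A.valuation (co k L c⁻¹) ≤ 1 := (A.valuation_le_one_iff _).2 (hA.2 c⁻¹)
  have h3 : co k L c * co k L c⁻¹ = 1 := by
    unfold co
    rw [← map_mul, ← map_mul, mul_inv_cancel₀ hc, map_one, map_one]
  have h4 : A.valuation (co k L c) * A.valuation (co k L c⁻¹) = 1 := by
    rw [← map_mul, h3, map_one]
  apply le_antisymm h1
  by_contra h5
  push Not at h5
  have h6 : A.valuation (co k L c) * A.valuation (co k L c⁻¹) < 1 :=
    mul_lt_one_of_lt_of_le h5 h2
  rw [h4] at h6
  exact lt_irrefl _ h6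

private theorem h4_pk_C (c : k) : pk k L (C c) = co k L c := by
  show algebraMap (RatFunc k) L (algebraMap k[X] (RatFunc k) (C c)) = _
  rw [RatFunc.algebraMap_C]
  rfl

private theorem h4_pk_X : pk k L X = tX k L := by
  show algebraMap (RatFunc k) L (algebraMap k[X] (RatFunc k) X) = _
  rw [RatFunc.algebraMap_X]
  rfl

private theorem h4_pk_ne {p : k[X]} (hp : p ≠ 0) : pk k L p ≠ 0 := by
  show algebraMap (RatFunc k) L (algebraMap k[X] (RatFunc k) p) ≠ 0
  rw [Ne, map_eq_zero, map_eq_zero_iff _ (RatFunc.algebraMap_injective k)]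
  exact hp

private theorem h4_base_of (A : ValuationSubring L) (w : RatFunc k)
    (h : ∀ p : k[X], p ≠ 0 → ∃ n : ℤ, A.valuation (pk k L p) =
      A.valuation (algebraMap (RatFunc k) L w) ^ n) (hw : w ≠ 0) (a : RatFunc k) (ha : a ≠ 0) :
    ∃ n : ℤ, A.valuation (algebraMap (RatFunc k) L a) =
      A.valuation (algebraMap (RatFunc k) L w) ^ n := by
  have hnum : a.num ≠ 0 := RatFunc.num_ne_zero ha
  have hden : a.denom ≠ 0 := RatFunc.denom_ne_zero a
  obtain ⟨n, hn⟩ := h _ hnum
  obtain ⟨m, hm⟩ := h _ hden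
  refine ⟨n - m, ?_⟩
  have h1 : algebraMap (RatFunc k) L a = pk k L a.num / pk k L a.denom := by
    conv_lhs => rw [← RatFunc.num_div_denom a]
    rw [map_div₀]
    rfl
  have hv : A.valuation (algebraMap (RatFunc k) L w) ≠ 0 := by
    rw [Ne, map_eq_zero, map_eq_zero]
    exact hw
  rw [h1, map_div₀, hn, hm, zpow_sub₀ hv]

end

section
variable {k L : Type} [Field k] [IsAlgClosed k] [Field L]
  [Algebra (RatFunc k) L] [FiniteDimensional (RatFunc k) L]

private theorem h4_base (A : ValuationSubring L) (hA : IsPl k A) :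
    ∃ w : RatFunc k, w ≠ 0 ∧ A.valuation (algebraMap (RatFunc k) L w) < 1 ∧
      ∀ a : RatFunc k, a ≠ 0 → ∃ n : ℤ, A.valuation (algebraMap (RatFunc k) L a) =
        A.valuation (algebraMap (RatFunc k) L w) ^ n := by
  let _ : Algebra k L := ((algebraMap (RatFunc k) L).comp (algebraMap k (RatFunc k))).toAlgebra
  have _ : IsScalarTower k (RatFunc k) L := IsScalarTower.of_algebraMap_eq fun _ => rfl
  have hF : FF k L := ff_of_algebraic k L
  by_cases hX : tX k L ∈ A
  · obtain ⟨c, hc⟩ := residue hF A hA (tX k L) hX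
    have hco : algebraMap k L c = co k L c := rfl
    rw [hco] at hc
    have hwL : algebraMap (RatFunc k) L (RatFunc.X - algebraMap k (RatFunc k) c) =
        tX k L - co k L c := map_sub _ _ _
    have hpkw : pk k L (X - C c) = tX k L - co k L c := by
      rw [map_sub, h4_pk_X, h4_pk_C]
    have hw0 : RatFunc.X - algebraMap k (RatFunc k) c ≠ 0 := by
      intro h
      have h1 : pk k L (X - C c) = 0 := by rw [hpkw, ← hwL, h, map_zero]
      exact h4_pk_ne (X_sub_C_ne_zero c) h1
    refine ⟨RatFunc.X - algebraMap k (RatFunc k) c, hw0, by rw [hwL]; exact hc, ?_⟩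
    apply h4_base_of A _ _ hw0
    intro p hp
    obtain ⟨q, hq, hnd⟩ := exists_eq_pow_rootMultiplicity_mul_and_not_dvd p hp c
    refine ⟨(p.rootMultiplicity c : ℕ), ?_⟩
    have hqc : q.eval c ≠ 0 := by
      intro h
      exact hnd (dvd_iff_isRoot.2 h)
    have hvq : A.valuation (pk k L q) = 1 := by
      obtain ⟨r, hr⟩ := X_sub_C_dvd_sub_C_eval (p := q) (a := c)
      have h1 : q = C (q.eval c) + (X - C c) * r := by rw [← hr]; ring
      have h2 : pk k L q = co k L (q.eval c) + (tX k L - co k L c) * pk k L r := by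
        conv_lhs => rw [h1]
        rw [map_add, map_mul, hpkw, h4_pk_C]
      rw [h2]
      have h3 : A.valuation ((tX k L - co k L c) * pk k L r) <
          A.valuation (co k L (q.eval c)) := by
        rw [h4_val_co A hA hqc, map_mul]
        exact mul_lt_one_of_lt_of_le hc ((A.valuation_le_one_iff _).2 (h4_pk_mem A hA hX r))
      rw [Valuation.map_add_eq_of_lt_left _ h3, h4_val_co A hA hqc]
    have h4 : A.valuation (pk k L p) =
        A.valuation (tX k L - co k L c) ^ (p.rootMultiplicity c) := by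
      conv_lhs => rw [hq]
      rw [map_mul, map_mul, map_pow, map_pow, hpkw, hvq, mul_one]
    rw [h4, hwL, zpow_natCast]
  · have hXv : 1 < A.valuation (tX k L) := by
      rw [← not_le, A.valuation_le_one_iff]
      exact hX
    have hX0 : (RatFunc.X : RatFunc k) ≠ 0 := RatFunc.X_ne_zero
    have hw0 : (RatFunc.X : RatFunc k)⁻¹ ≠ 0 := inv_ne_zero hX0
    have hwL : algebraMap (RatFunc k) L (RatFunc.X : RatFunc k)⁻¹ = (tX k L)⁻¹ := map_inv₀ _ _
    refine ⟨(RatFunc.X : RatFunc k)⁻¹, hw0, ?_, ?_⟩
    · rw [hwL, map_inv₀]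
      exact inv_lt_one_of_one_lt₀ hXv
    · apply h4_base_of A _ _ hw0
      intro p hp
      refine ⟨-(p.natDegree : ℤ), ?_⟩
      rw [hwL, map_inv₀, inv_zpow, ← zpow_neg, neg_neg, zpow_natCast]
      have h1 : pk k L p = ∑ i ∈ Finset.range (p.natDegree + 1),
          co k L (p.coeff i) * tX k L ^ i := by
        conv_lhs => rw [p.as_sum_range_C_mul_X_pow]
        rw [map_sum]
        refine Finset.sum_congr rfl fun i _ => ?_
        rw [map_mul, map_pow, h4_pk_X, h4_pk_C]
      rw [h1]
      have hlc : p.coeff p.natDegree ≠ 0 := by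
        rw [coeff_natDegree]
        exact leadingCoeff_ne_zero.2 hp
      have h2 : ∀ i ∈ Finset.range (p.natDegree + 1) \ {p.natDegree},
          A.valuation (co k L (p.coeff i) * tX k L ^ i) <
          A.valuation (co k L (p.coeff p.natDegree) * tX k L ^ p.natDegree) := by
        intro i hi
        rw [Finset.mem_sdiff, Finset.mem_range, Finset.mem_singleton] at hi
        have hi2 : i < p.natDegree := by omega
        rw [map_mul, map_mul, map_pow, map_pow, h4_val_co A hA hlc, one_mul]
        have h3 : A.valuation (co k L (p.coeff i)) ≤ 1 := (A.valuation_le_one_iff _).2 (hA.2 _)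
        calc A.valuation (co k L (p.coeff i)) * A.valuation (tX k L) ^ i
            ≤ 1 * A.valuation (tX k L) ^ i := mul_le_mul_left h3 _
          _ = A.valuation (tX k L) ^ i := one_mul _
          _ < A.valuation (tX k L) ^ p.natDegree := pow_lt_pow_right₀ hXv hi2
      rw [Valuation.map_sum_eq_of_lt _ (j := p.natDegree)
        (Finset.mem_range.2 (Nat.lt_succ_self _)) h2, map_mul, map_pow,
        h4_val_co A hA hlc, one_mul]

private theorem h4_finite (A : ValuationSubring L) (w : RatFunc k) (hw0 : w ≠ 0)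
    (hw1 : A.valuation (algebraMap (RatFunc k) L w) < 1)
    (hb : ∀ a : RatFunc k, a ≠ 0 → ∃ n : ℤ, A.valuation (algebraMap (RatFunc k) L a) =
        A.valuation (algebraMap (RatFunc k) L w) ^ n) :
    (Set.Ico (A.valuation (algebraMap (RatFunc k) L w)) 1).Finite := by
  classical
  set g := A.valuation (algebraMap (RatFunc k) L w) with hg
  have hg0 : g ≠ 0 := by
    rw [hg, Ne, map_eq_zero, map_eq_zero]
    exact hw0
  have hgpos : 0 < g := zero_lt_iff.2 hg0
  by_contra hinf
  obtain ⟨T, hTS, hTc⟩ := Set.Infinite.exists_subset_card_eq hinf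
    (Module.finrank (RatFunc k) L + 1)
  choose x hx using A.valuation_surjective
  have hli : LinearIndependent (RatFunc k) (fun γ : T => x (γ : A.ValueGroup)) := by
    rw [linearIndependent_iff']
    intro s c hsum i hi
    by_contra hci
    set s' := s.filter (fun j => c j ≠ 0) with hs'
    have his' : i ∈ s' := Finset.mem_filter.2 ⟨hi, hci⟩
    have hsum' : ∑ j ∈ s', c j • x (j : A.ValueGroup) = 0 := by
      rw [hs', Finset.sum_filter_of_ne, hsum]
      intro j _ hj hcj
      exact hj (by rw [hcj, zero_smul])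
    obtain ⟨j, hj, hmax⟩ := Finset.exists_max_image s'
      (fun j => A.valuation (c j • x (j : A.ValueGroup))) ⟨i, his'⟩
    have hval : ∀ j ∈ s', ∃ n : ℤ, A.valuation (c j • x (j : A.ValueGroup)) =
        g ^ n * (j : A.ValueGroup) := by
      intro j hj
      obtain ⟨n, hn⟩ := hb (c j) (Finset.mem_filter.1 hj).2
      exact ⟨n, by rw [Algebra.smul_def, map_mul, hn, hx]⟩
    have hne : ∀ (a b : T) (n m : ℤ), n < m → g ^ n * (a : A.ValueGroup) ≠
        g ^ m * (b : A.ValueGroup) := by
      intro a b n m hnm heq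
      have ha := hTS a.2
      have hb' := hTS b.2
      rw [Set.mem_Ico] at ha hb'
      have hm : g ^ m = g ^ n * g ^ (m - n) := by
        rw [← zpow_add₀ hg0]
        congr 1
        ring
      rw [hm, mul_assoc] at heq
      have h1 : (a : A.ValueGroup) = g ^ (m - n) * (b : A.ValueGroup) :=
        mul_left_cancel₀ (zpow_ne_zero n hg0) heq
      have h2 : g ^ (m - n) ≤ g := by
        have h3 : g ^ (m - n) = g * g ^ (m - n - 1) := by
          rw [← zpow_one_add₀ hg0]
          congr 1
          ring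
        rw [h3]
        have h4 : g ^ (m - n - 1) ≤ 1 := by
          obtain ⟨r, hr⟩ := Int.eq_ofNat_of_zero_le (show 0 ≤ m - n - 1 by omega)
          rw [hr]
          show g ^ ((r : ℕ) : ℤ) ≤ 1
          rw [zpow_natCast]
          exact pow_le_one' hw1.le r
        calc g * g ^ (m - n - 1) ≤ g * 1 := mul_le_mul_right h4 g
          _ = g := mul_one g
      have h5 : (a : A.ValueGroup) < g := by
        rw [h1]
        calc g ^ (m - n) * (b : A.ValueGroup) ≤ g * (b : A.ValueGroup) := mul_le_mul_left h2 _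
          _ < g * 1 := mul_lt_mul_of_pos_left hb'.2 hgpos
          _ = g := mul_one g
      exact absurd ha.1 (not_le.2 h5)
    have hlt : ∀ i ∈ s' \ {j}, A.valuation (c i • x (i : A.ValueGroup)) <
        A.valuation (c j • x (j : A.ValueGroup)) := by
      intro i hi
      rw [Finset.mem_sdiff, Finset.mem_singleton] at hi
      apply lt_of_le_of_ne (hmax i hi.1)
      obtain ⟨n, hn⟩ := hval i hi.1
      obtain ⟨m, hm⟩ := hval j hj
      rw [hn, hm]
      intro heq
      rcases lt_trichotomy n m with h | h | h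
      · exact hne i j n m h heq
      · subst h
        exact hi.2 (Subtype.ext (mul_left_cancel₀ (zpow_ne_zero n hg0) heq))
      · exact hne j i m n h heq.symm
    have h1 := Valuation.map_sum_eq_of_lt A.valuation hj hlt
    rw [hsum', map_zero] at h1
    obtain ⟨n, hn⟩ := hval j hj
    rw [hn] at h1
    have hjp : (j : A.ValueGroup) ≠ 0 := by
      have hj2 := hTS j.2
      rw [Set.mem_Ico] at hj2
      exact (lt_of_lt_of_le hgpos hj2.1).ne'
    exact mul_ne_zero (zpow_ne_zero n hg0) hjp h1.symm
  have h2 := hli.fintype_card_le_finrank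
  rw [Fintype.card_coe, hTc] at h2
  omega

/-- SR-L1 -/
theorem exists_unif [IsGalois (RatFunc k) L] (A : ValuationSubring L) (hA : IsPl k A) :
    ∃ π : L, Unif A π := by
  classical
  obtain ⟨w, hw0, hw1, hb⟩ := h4_base A hA
  have hfin := h4_finite A w hw0 hw1 hb
  have hg0 : A.valuation (algebraMap (RatFunc k) L w) ≠ 0 := by
    rw [Ne, map_eq_zero, map_eq_zero]
    exact hw0
  have hgpos := zero_lt_iff.2 hg0
  obtain ⟨γ, hγ, hmax⟩ := Set.exists_max_image _ id hfin ⟨_, Set.left_mem_Ico.2 hw1⟩
  rw [Set.mem_Ico] at hγ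
  obtain ⟨π, rfl⟩ := A.valuation_surjective γ
  have hπ0 : A.valuation π ≠ 0 := (lt_of_lt_of_le hgpos hγ.1).ne'
  have hπpos : 0 < A.valuation π := zero_lt_iff.2 hπ0
  have hπ : π ≠ 0 := by
    rintro rfl
    exact hπ0 (map_zero _)
  have hgap : ∀ z : L, A.valuation π < A.valuation z → A.valuation z ≤ 1 →
      A.valuation z = 1 := by
    intro z h1 h2
    by_contra h3
    have h4 : A.valuation z < 1 := lt_of_le_of_ne h2 h3
    have h5 := hmax (A.valuation z) ⟨hγ.1.trans h1.le, h4⟩
    exact absurd h1 (not_lt.2 h5)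
  refine ⟨π, hπ, hγ.2, ?_⟩
  let _ : Algebra k L := ((algebraMap (RatFunc k) L).comp (algebraMap k (RatFunc k))).toAlgebra
  have _ : IsScalarTower k (RatFunc k) L := IsScalarTower.of_algebraMap_eq fun _ => rfl
  have hF : FF k L := ff_of_algebraic k L
  intro y hy
  obtain ⟨N₁, h₁⟩ := arch hF A hA.2 π hγ.2 hπ y
  obtain ⟨N₂, h₂⟩ := arch hF A hA.2 π hγ.2 hπ y⁻¹
  have hy0 : A.valuation y ≠ 0 := by
    rw [Ne, map_eq_zero]
    exact hy
  have hypos : 0 < A.valuation y := zero_lt_iff.2 hy0
  have e1 := h₁ N₁ le_rfl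
  have e2 := h₂ N₂ le_rfl
  rw [ValuationSubring.mem_nonunits_iff, map_mul, map_pow] at e1 e2
  rw [map_inv₀] at e2
  have e3 : A.valuation π ^ N₂ < A.valuation y := by
    have := mul_lt_mul_of_pos_right e2 hypos
    rwa [mul_assoc, inv_mul_cancel₀ hy0, mul_one, one_mul] at this
  obtain ⟨n, hn, hleast⟩ := Int.exists_least_of_bdd
    (P := fun n : ℤ => A.valuation π ^ n * A.valuation y ≤ 1)
    ⟨-(N₂ : ℤ), fun z hz => by
      by_contra hlt
      push Not at hlt
      have h4 : A.valuation π ^ z * A.valuation π ^ N₂ < A.valuation π ^ z * A.valuation y :=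
        mul_lt_mul_of_pos_left e3 (zero_lt_iff.2 (zpow_ne_zero z hπ0))
      have h5 : A.valuation π ^ z * A.valuation π ^ N₂ = (A.valuation π)⁻¹ ^ (-(z + N₂)) := by
        rw [← zpow_natCast (A.valuation π) N₂, ← zpow_add₀ hπ0, inv_zpow, ← zpow_neg, neg_neg]
      have h6 : 1 ≤ (A.valuation π)⁻¹ ^ (-(z + N₂)) := by
        obtain ⟨r, hr⟩ := Int.eq_ofNat_of_zero_le (show 0 ≤ -(z + (N₂ : ℤ)) by omega)
        rw [hr]
        show 1 ≤ (A.valuation π)⁻¹ ^ ((r : ℕ) : ℤ)
        rw [zpow_natCast]
        exact one_le_pow₀ ((one_le_inv₀ hπpos).2 hγ.2.le)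
      rw [h5] at h4
      exact absurd (lt_of_le_of_lt h6 h4) (not_lt.2 hz)⟩
    ⟨N₁, by
      show A.valuation π ^ (N₁ : ℤ) * A.valuation y ≤ 1
      rw [zpow_natCast]
      exact e1.le⟩
  have h7 : 1 < A.valuation π ^ (n - 1) * A.valuation y := by
    by_contra h
    push Not at h
    have := hleast (n - 1) h
    omega
  have h8 : A.valuation π < A.valuation π ^ n * A.valuation y := by
    have h9 := mul_lt_mul_of_pos_left h7 hπpos
    rw [mul_one, ← mul_assoc, ← zpow_one_add₀ hπ0] at h9
    rwa [show 1 + (n - 1) = n by ring] at h9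
  have h10 : A.valuation (y * π ^ n) = 1 := by
    have hv : A.valuation (y * π ^ n) = A.valuation π ^ n * A.valuation y := by
      rw [map_mul, map_zpow₀, mul_comm]
    apply hgap
    · rw [hv]
      exact h8
    · rw [hv]
      exact hn
  refine ⟨n, mul_ne_zero hy (zpow_ne_zero n hπ), ?_, ?_⟩
  · rw [← A.valuation_le_one_iff, h10]
  · rw [← A.valuation_le_one_iff, map_inv₀, h10, inv_one]

end

end Pool.Agent.Helper54.SR
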